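import Mathlib
import Pool.Agent.H93Tate.Prod
import Pool.Agent.H93Tate.PrimeDeg
import Pool.Agent.H93Tate.PowDefs

/-!
# One Frobenius of maximal angle rank: all Tate classes on all powers come from degree two
-/

set_option autoImplicit false

namespace Pool.Agent.H93Tate.Variants.AllPowersOneFrobenius

open Polynomial Pool.Agent.H91.Mono Pool.Agent.H93Tate

/-- Let `E` be a field of characteristic zero and `Γ` a group of similitudes of a nondegenerate
alternating form on `V`, acting semisimply on `V`. Suppose that some `F ∈ Γ` has multiplier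
`q = p ^ n` and as characteristic polynomial the product of finitely many `P i` over `ℚ`, all of
whose complex roots have absolute value `√q`. Suppose that each `P i` is irreducible of degree
larger than two and satisfies one of four arithmetic conditions, or is squarefree, has no root
`± √q` and has maximal angle rank, and that the fields generated by the `N`-th powers of the roots
of `P i` and of `P j` meet in a real field if `i ≠ j` (no condition if there is just one `P i`).
Then, for every `m`, every class `t` in the exterior algebra of `V ^ m` that is multiplied by the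
`i`-th power of the multiplier under a subgroup of finite index of `Γ` lies in the subalgebra
generated by the classes of degree two that are multiplied by the multiplier under some subgroup
of finite index. -/
theorem result (p n : ℕ) [Fact p.Prime] (hn : 0 < n) {ι : Type*} [Fintype ι] (P : ι → ℚ[X])
    (hweil : ∀ i (z : ℂ), aeval z (P i) = 0 → ‖z‖ ^ 2 = (p : ℝ) ^ n)
    (hcond : ∀ i, (Irreducible (P i) ∧ 2 < (P i).natDegree ∧
        (CycleCond p n (P i) ∨ HalfCond p n (P i) ∨ SepCond p n (P i) ∨ PrimeCond p n (P i))) ∨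
      (Squarefree (P i) ∧ (∀ z : ℂ, aeval z (P i) = 0 → z ^ 2 ≠ (p : ℂ) ^ n) ∧
        MaxRank ((p : ℂ) ^ n) (P i)))
    (N : ℕ) (hN : 0 < N)
    (hreal : ∀ i j, i ≠ j → ∀ z ∈ powField N (P i) ⊓ powField N (P j), starRingEnd ℂ z = z)
    {E : Type*} [Field E] [CharZero E] {V : Type*}
    [AddCommGroup V] [Module E V] [FiniteDimensional E V] (ψ : V →ₗ[E] V →ₗ[E] E)
    (halt : ∀ v, ψ v v = 0) (hnd : ∀ v, (∀ w, ψ v w = 0) → v = 0)
    (Γ : Subgroup (V ≃ₗ[E] V)) (hsim : ∀ γ ∈ Γ, ∃ μ : E, Mult ψ γ μ)
    (hss : ActsSemisimply Γ) (F : V ≃ₗ[E] V) (hF : F ∈ Γ)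
    (hchar : LinearMap.charpoly (F : V →ₗ[E] V) = (∏ i, P i).map (algebraMap ℚ E))
    (hmult : Mult ψ F ((p : E) ^ n))
    (m i : ℕ) (t : ExteriorAlgebra E (Fin m → V)) (ht : TateClass ψ Γ i t) :
    t ∈ Algebra.adjoin E {c | c ∈ (⋀[E]^2 (Fin m → V)) ∧ TateClass ψ Γ 1 c} := by
  have h0 := fun i => Pool.Agent.H93Tate.cond_four hn (hweil i) (hcond i)
  obtain ⟨h1, hw, h2, h3⟩ := maxRank_prod hn (fun i => (h0 i).1) hweil (fun i => (h0 i).2.1)
    (fun i => (h0 i).2.2) hN hreal
  obtain ⟨Δ, hΔ, ht⟩ := ht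
  have h4 := Pool.Agent.H93Tate.Fft.allPowersSq hn h1 hw h2 h3 (AlgebraicClosure E) ψ halt hnd Γ
    hsim hss F hF hchar hmult m i Δ hΔ t ht
  refine Algebra.adjoin_mono ?_ h4
  rintro c ⟨hc, Δ', hΔ', h5⟩
  refine ⟨hc, Δ', hΔ', ?_⟩
  intro γ hγ μ hμ
  rw [pow_one]
  exact h5 γ hγ μ hμ

end Pool.Agent.H93Tate.Variants.AllPowersOneFrobenius
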